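import Mathlib

set_option autoImplicit false

namespace Pool.Agent.Helper35_Leg

open Polynomial Filter

noncomputable section

/-- The Legendre operator in the variable `y = (1+x)/2`. -/
def dl : ℝ[X] →ₗ[ℝ] ℝ[X] :=
  (LinearMap.mulLeft ℝ (X ^ 2 - X : ℝ[X])) ∘ₗ derivative ∘ₗ derivative +
    (LinearMap.mulLeft ℝ (2 * X - 1 : ℝ[X])) ∘ₗ derivative

lemma dl_apply (f : ℝ[X]) :
    dl f = (X ^ 2 - X) * derivative (derivative f) + (2 * X - 1) * derivative f := rfl

lemma dl_coeff (f : ℝ[X]) (j : ℕ) :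
    (dl f).coeff j = (j : ℝ) * (j + 1) * f.coeff j - ((j : ℝ) + 1) ^ 2 * f.coeff (j + 1) := by
  rw [dl_apply]
  have h2 : (2 * X - 1 : ℝ[X]) * derivative f = C 2 * (X * derivative f) - derivative f := by
    rw [show (C (2:ℝ) : ℝ[X]) = 2 from rfl]; ring
  have h1 : (X ^ 2 - X : ℝ[X]) * derivative (derivative f)
      = X * (X * derivative (derivative f)) - X * derivative (derivative f) := by ring
  rw [h1, h2]
  rcases j with _ | _ | j
  · simp [coeff_derivative]
  · simp only [coeff_add, coeff_sub, coeff_X_mul, coeff_C_mul, coeff_X_mul_zero, coeff_derivative]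
    simp
    ring
  · simp only [coeff_add, coeff_sub, coeff_X_mul, coeff_C_mul, coeff_derivative]
    push_cast
    ring

/-- `(3/2)_j / j!` -/
def av : ℕ → ℝ
  | 0 => 1
  | (j + 1) => av j * ((j : ℝ) + 3 / 2) / (j + 1)

/-- `(-1/2)_k / k!` -/
def ev : ℕ → ℝ
  | 0 => 1
  | (k + 1) => ev k * ((k : ℝ) - 1 / 2) / (k + 1)

/-- `N! / (2 (1/2)_N)` -/
def dv : ℕ → ℝ
  | 0 => 1 / 2
  | (N + 1) => dv N * ((N : ℝ) + 1) / (N + 1 / 2)

lemma av_pos (j : ℕ) : 0 < av j := by
  induction j with
  | zero => simp [av]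
  | succ j ih => simp only [av]; positivity

lemma dv_pos (j : ℕ) : 0 < dv j := by
  induction j with
  | zero => simp [dv]
  | succ j ih => simp only [dv]; positivity

lemma ev_ne (k : ℕ) : ev k ≠ 0 := by
  induction k with
  | zero => simp [ev]
  | succ k ih =>
    simp only [ev]
    have h1 : (k : ℝ) - 1 / 2 ≠ 0 := by
      intro h
      have h2 : (2 * k : ℝ) = 1 := by linarith
      have h3 : 2 * k = 1 := by exact_mod_cast h2
      omega
    have h2 : (k : ℝ) + 1 ≠ 0 := by positivity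
    exact div_ne_zero (mul_ne_zero ih h1) h2

lemma dv_mul_av (n : ℕ) : dv n * av n = (n : ℝ) + 1 / 2 := by
  induction n with
  | zero => simp [dv, av]
  | succ n ih =>
    simp only [dv, av]
    have h1 : (n : ℝ) + 1 / 2 ≠ 0 := by positivity
    have h2 : (n : ℝ) + 1 ≠ 0 := by positivity
    have : dv n * ((n : ℝ) + 1) / (n + 1 / 2) * (av n * ((n : ℝ) + 3 / 2) / (n + 1))
        = (dv n * av n) * ((n + 3 / 2) / (n + 1 / 2)) := by
      field_simp
    rw [this, ih]
    push_cast
    field_simp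
    ring

/-- coefficients of `A (y^N)`. -/
def bc (N j : ℕ) : ℝ := if j ≤ N then dv N * av j * ev (N - j) else 0

def bpoly (N : ℕ) : ℝ[X] := ∑ j ∈ Finset.range (N + 1), C (bc N j) * X ^ j

lemma bpoly_coeff (N j : ℕ) : (bpoly N).coeff j = bc N j := by
  unfold bpoly
  rw [finsetSum_coeff]
  simp only [coeff_C_mul, coeff_X_pow, mul_ite, mul_one, mul_zero]
  rw [Finset.sum_ite_eq]
  split_ifs with h
  · rfl
  · rw [Finset.mem_range] at h
    unfold bc
    rw [if_neg (by omega)]

/-- The operator with `A P_n = (n+1/2) P_n`. -/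
def Aop : ℝ[X] →ₗ[ℝ] ℝ[X] := Polynomial.lsum (fun N => LinearMap.toSpanSingleton ℝ ℝ[X] (bpoly N))

lemma Aop_monomial (N : ℕ) : Aop (X ^ N) = bpoly N := by
  unfold Aop
  rw [X_pow_eq_monomial]
  simp [Polynomial.lsum_apply, Polynomial.sum_monomial_index]

lemma bc_rec (N j : ℕ) :
    ((N : ℝ) * (N + 1) - j * (j + 1)) * bc N j
      = (N : ℝ) ^ 2 * bc (N - 1) j - ((j : ℝ) + 1) ^ 2 * bc N (j + 1) := by
  rcases lt_trichotomy j N with h | h | h
  · obtain ⟨k, rfl⟩ : ∃ k, N = j + k + 1 := ⟨N - j - 1, by omega⟩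
    unfold bc
    rw [if_pos (by omega), if_pos (by omega), if_pos (by omega)]
    have e1 : j + k + 1 - j = k + 1 := by omega
    have e2 : j + k + 1 - 1 - j = k := by omega
    have e3 : j + k + 1 - (j + 1) = k := by omega
    have e4 : j + k + 1 - 1 = j + k := by omega
    rw [e1, e2, e3, e4]
    simp only [dv, av, ev]
    push_cast
    have h1 : (j : ℝ) + k + 1 / 2 ≠ 0 := by positivity
    have h2 : (k : ℝ) + 1 ≠ 0 := by positivity
    have h3 : (j : ℝ) + 1 ≠ 0 := by positivity
    field_simp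
    ring
  · subst h
    unfold bc
    have h1 : ¬ (j + 1 ≤ j) := by omega
    rw [if_neg h1]
    rcases j with _ | j
    · simp
    · have h2 : ¬ (j + 1 ≤ j + 1 - 1) := by omega
      rw [if_neg h2]
      ring
  · unfold bc
    have h1 : ¬ (j ≤ N) := by omega
    have h2 : ¬ (j ≤ N - 1) := by omega
    have h3 : ¬ (j + 1 ≤ N) := by omega
    rw [if_neg h1, if_neg h2, if_neg h3]
    ring

lemma dl_X_pow (N : ℕ) : dl (X ^ N) = C ((N : ℝ) * (N + 1)) * X ^ N - C ((N : ℝ) ^ 2) * X ^ (N - 1) := by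
  ext j
  rw [dl_coeff, coeff_sub, coeff_C_mul, coeff_C_mul]
  simp only [coeff_X_pow]
  by_cases h1 : j = N
  · subst h1
    rcases j with _ | j
    · simp
    · simp
  · rcases N with _ | N
    · simp [h1]
    · by_cases h2 : j = N
      · subst h2
        simp
      · have h3 : ¬ (j + 1 = N + 1) := by omega
        simp only [h1, h3, if_false]
        simp [h2]

lemma Aop_comm (f : ℝ[X]) : Aop (dl f) = dl (Aop f) := by
  induction f using Polynomial.induction_on' with
  | add p q hp hq => rw [map_add, map_add, map_add, map_add, hp, hq]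
  | monomial N a =>
    have hm : (monomial N a : ℝ[X]) = a • X ^ N := by
      rw [X_pow_eq_monomial, smul_monomial]; simp
    rw [hm, map_smul, map_smul, map_smul, map_smul]
    congr 1
    rw [dl_X_pow, Aop_monomial, map_sub]
    rw [← smul_eq_C_mul, ← smul_eq_C_mul, map_smul, map_smul, Aop_monomial, Aop_monomial]
    ext j
    rw [coeff_sub, coeff_smul, coeff_smul, dl_coeff, bpoly_coeff, bpoly_coeff, bpoly_coeff,
      smul_eq_mul, smul_eq_mul]
    have := bc_rec N j
    linarith

end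

end Pool.Agent.Helper35_Leg
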