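import Mathlib

set_option autoImplicit false

namespace Pool.Agent.Helper35_Leg

open Polynomial Filter

/-- Laguerre's inequality. -/
lemma laguerre {f : ℝ[X]} (hf : f.Splits) :
    ∀ t : ℝ, f.eval t * (derivative (derivative f)).eval t ≤ ((derivative f).eval t) ^ 2 := by
  refine Submonoid.closure_induction (motive := fun f _ => ∀ t : ℝ,
    f.eval t * (derivative (derivative f)).eval t ≤ ((derivative f).eval t) ^ 2) ?_ ?_ ?_ hf
  · rintro f (⟨a, rfl⟩ | ⟨a, rfl⟩) t
    · simp
    · simp
  · intro t; simp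
  · intro f g _ _ hf hg t
    have h1 := hf t
    have h2 := hg t
    simp only [derivative_mul, derivative_add, eval_add, eval_mul]
    have h3 := mul_nonneg (sq_nonneg (g.eval t)) (sub_nonneg.mpr h1)
    have h4 := mul_nonneg (sq_nonneg (f.eval t)) (sub_nonneg.mpr h2)
    nlinarith [h3, h4]

lemma splits_derivative {f : ℝ[X]} (hf : f.Splits) : (derivative f).Splits := by
  rw [splits_iff_card_roots]
  apply le_antisymm (card_roots' _)
  have h1 := card_roots_le_derivative f
  have h2 := hf.natDegree_eq_card_roots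
  have h3 := natDegree_derivative_le f
  omega

lemma splits_iterate_derivative {f : ℝ[X]} (hf : f.Splits) (k : ℕ) : (derivative^[k] f).Splits := by
  induction k with
  | zero => exact hf
  | succ k ih => rw [Function.iterate_succ_apply']; exact splits_derivative ih

lemma newton {f : ℝ[X]} (hf : f.Splits) (j : ℕ) :
    ((j : ℝ) + 2) * (f.coeff j * f.coeff (j + 2)) ≤ ((j : ℝ) + 1) * f.coeff (j + 1) ^ 2 := by
  have h := laguerre (splits_iterate_derivative hf j) 0
  rw [← Function.iterate_succ_apply' (f := derivative), ← Function.iterate_succ_apply' (f := derivative)] at h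
  rw [← coeff_zero_eq_eval_zero, ← coeff_zero_eq_eval_zero, ← coeff_zero_eq_eval_zero,
    coeff_iterate_derivative, coeff_iterate_derivative, coeff_iterate_derivative] at h
  simp only [zero_add, Nat.descFactorial_self, nsmul_eq_mul] at h
  have e1 : ((j + 1).factorial : ℝ) = ((j : ℝ) + 1) * (j.factorial : ℝ) := by
    rw [Nat.factorial_succ]; push_cast; ring
  have e2 : ((j + 2).factorial : ℝ) = ((j : ℝ) + 2) * (((j : ℝ) + 1) * (j.factorial : ℝ)) := by
    rw [Nat.factorial_succ, Nat.factorial_succ]; push_cast; ring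
  have h' : (j.factorial : ℝ) * f.coeff j * (((j : ℝ) + 2) * (((j : ℝ) + 1) * (j.factorial : ℝ)) * f.coeff (j + 2)) ≤
      (((j : ℝ) + 1) * (j.factorial : ℝ) * f.coeff (j + 1)) ^ 2 := by
    rw [← e2, ← e1]
    exact h
  have hfac : (0:ℝ) < (j.factorial : ℝ) ^ 2 * ((j : ℝ) + 1) := by positivity
  have h5 : ((j.factorial : ℝ) ^ 2 * ((j : ℝ) + 1)) * (((j : ℝ) + 2) * (f.coeff j * f.coeff (j + 2))) ≤
      ((j.factorial : ℝ) ^ 2 * ((j : ℝ) + 1)) * (((j : ℝ) + 1) * f.coeff (j + 1) ^ 2) := by
    nlinarith [h']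
  exact le_of_mul_le_mul_left h5 hfac

end Pool.Agent.Helper35_Leg
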