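import Mathlib
import Pool.Agent.Helper35_Leg.Basic

set_option autoImplicit false

namespace Pool.Agent.Helper35_Leg

open Polynomial Filter

noncomputable section

/-- A family of eigenpolynomials of `dl`, one in each degree. -/
structure Fam (L : ℕ → ℝ[X]) : Prop where
  ne : ∀ n, L n ≠ 0
  deg : ∀ n, (L n).natDegree = n
  eig : ∀ n, dl (L n) = C ((n : ℝ) * (n + 1)) * L n

lemma Aop_coeff (f : ℝ[X]) (j : ℕ) : (Aop f).coeff j = f.sum (fun N a => a * bc N j) := by
  unfold Aop
  rw [Polynomial.lsum_apply, Polynomial.sum_def, Polynomial.sum_def, finsetSum_coeff]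
  apply Finset.sum_congr rfl
  intro N _
  rw [LinearMap.toSpanSingleton_apply, coeff_smul, bpoly_coeff, smul_eq_mul]

lemma bc_self (n : ℕ) : bc n n = (n : ℝ) + 1 / 2 := by
  unfold bc
  rw [if_pos le_rfl, Nat.sub_self]
  simp only [ev, mul_one]
  exact dv_mul_av n

lemma Aop_coeff_of_natDegree_lt (f : ℝ[X]) (j : ℕ) (h : f.natDegree < j) : (Aop f).coeff j = 0 := by
  rw [Aop_coeff, Polynomial.sum_def]
  apply Finset.sum_eq_zero
  intro N hN
  have h1 : N ≤ f.natDegree := le_natDegree_of_mem_supp N hN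
  unfold bc
  rw [if_neg (by omega), mul_zero]

lemma Aop_coeff_natDegree (f : ℝ[X]) :
    (Aop f).coeff f.natDegree = f.coeff f.natDegree * ((f.natDegree : ℝ) + 1 / 2) := by
  rw [Aop_coeff, Polynomial.sum_over_range]
  · rw [Finset.sum_range_succ, bc_self, Finset.sum_eq_zero, zero_add]
    intro N hN
    rw [Finset.mem_range] at hN
    unfold bc
    rw [if_neg (by omega), mul_zero]
  · intro n; simp

lemma eig_top {h : ℝ[X]} {n : ℕ} (heig : dl h = C ((n : ℝ) * (n + 1)) * h)
    (hlt : ∀ j, n ≤ j → h.coeff j = 0) : h = 0 := by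
  by_contra hne
  set m := h.natDegree with hm
  have hmn : m < n := by
    by_contra hge
    have := hlt m (not_lt.mp hge)
    rw [hm, coeff_natDegree, leadingCoeff_eq_zero] at this
    exact hne this
  have h1 : (dl h).coeff m = (m : ℝ) * (m + 1) * h.coeff m := by
    rw [dl_coeff, coeff_eq_zero_of_natDegree_lt (show h.natDegree < m + 1 by omega)]
    ring
  rw [heig, coeff_C_mul] at h1
  have h2 : ((n : ℝ) * (n + 1) - m * (m + 1)) * h.coeff m = 0 := by linarith
  have h3 : (0:ℝ) < (n : ℝ) * (n + 1) - m * (m + 1) := by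
    have : (m : ℝ) + 1 ≤ n := by exact_mod_cast hmn
    nlinarith [show (0:ℝ) ≤ m from Nat.cast_nonneg m]
  rcases mul_eq_zero.mp h2 with h4 | h4
  · exact absurd h4 h3.ne'
  · rw [hm, coeff_natDegree, leadingCoeff_eq_zero] at h4
    exact hne h4

lemma Aop_L {L : ℕ → ℝ[X]} (hL : Fam L) (n : ℕ) : Aop (L n) = C ((n : ℝ) + 1 / 2) * L n := by
  rw [← sub_eq_zero]
  apply eig_top (n := n)
  · rw [map_sub, ← Aop_comm, hL.eig n, ← smul_eq_C_mul, ← smul_eq_C_mul, map_smul, map_smul, hL.eig n,
      ← smul_eq_C_mul, ← smul_eq_C_mul, smul_sub, smul_comm]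
  · intro j hj
    rw [coeff_sub, coeff_C_mul]
    rcases hj.lt_or_eq with h | h
    · rw [Aop_coeff_of_natDegree_lt _ _ (by rw [hL.deg n]; exact h),
        coeff_eq_zero_of_natDegree_lt (by rw [hL.deg n]; exact h)]
      ring
    · have := Aop_coeff_natDegree (L n)
      rw [hL.deg n] at this
      rw [← h, this]
      ring

/-- a linear map vanishing on a family with one polynomial in each degree vanishes. -/
lemma eq_zero_of_fam {L : ℕ → ℝ[X]} (hne : ∀ n, L n ≠ 0) (hdeg : ∀ n, (L n).natDegree = n)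
    (S : ℝ[X] →ₗ[ℝ] ℝ[X]) (hS : ∀ n, S (L n) = 0) (f : ℝ[X]) : S f = 0 := by
  have key : ∀ n : ℕ, ∀ f : ℝ[X], (∀ j, n ≤ j → f.coeff j = 0) → S f = 0 := by
    intro n
    induction n with
    | zero =>
      intro f hf
      have : f = 0 := by
        ext j; simpa using hf j (Nat.zero_le j)
      rw [this, map_zero]
    | succ n ih =>
      intro f hf
      have hl : (L n).coeff n ≠ 0 := by
        have := leadingCoeff_ne_zero.mpr (hne n)
        rwa [leadingCoeff, hdeg n] at this
      have h1 := ih (f - C (f.coeff n / (L n).coeff n) * L n) (by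
        intro j hj
        rw [coeff_sub, coeff_C_mul]
        rcases hj.lt_or_eq with h | h
        · rw [hf j (by omega), coeff_eq_zero_of_natDegree_lt (p := L n) (n := j) (by rw [hdeg n]; exact h)]
          ring
        · subst h
          field_simp
          ring)
      rw [map_sub, ← smul_eq_C_mul, map_smul, hS n, smul_zero, sub_zero] at h1
      exact h1
  exact key (f.natDegree + 1) f (fun j hj => coeff_eq_zero_of_natDegree_lt (by omega))

/-- the multiplier operator in terms of `dl` and `Aop`. -/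
def Top (p r : ℝ[X]) : ℝ[X] →ₗ[ℝ] ℝ[X] :=
  (aeval (R := ℝ) (A := Module.End ℝ ℝ[X]) dl p) + (aeval (R := ℝ) (A := Module.End ℝ ℝ[X]) dl r) ∘ₗ Aop

lemma aeval_dl_eig {f : ℝ[X]} {c : ℝ} (h : dl f = C c * f) (p : ℝ[X]) :
    (aeval (R := ℝ) (A := Module.End ℝ ℝ[X]) dl p) f = C (p.eval c) * f := by
  induction p using Polynomial.induction_on' with
  | add p q hp hq =>
    rw [map_add, LinearMap.add_apply, hp, hq, eval_add, C_add, add_mul]
  | monomial n a =>
    rw [aeval_monomial, eval_monomial]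
    rw [Module.algebraMap_end_eq_smul_id, smul_mul_assoc, LinearMap.smul_apply]
    change a • ((LinearMap.id : ℝ[X] →ₗ[ℝ] ℝ[X]) ((dl ^ n : Module.End ℝ ℝ[X]) f)) = _
    rw [LinearMap.id_apply]
    have h2 : (dl ^ n : Module.End ℝ ℝ[X]) f = C (c ^ n) * f := by
      induction n with
      | zero => simp
      | succ n ih =>
        rw [pow_succ', Module.End.mul_apply, ih, ← smul_eq_C_mul, map_smul, h,
          ← smul_eq_C_mul, ← smul_eq_C_mul, smul_smul, pow_succ]
    rw [h2, smul_eq_C_mul, C_mul, mul_assoc]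

lemma Top_L {L : ℕ → ℝ[X]} (hL : Fam L) (p r : ℝ[X]) (n : ℕ) :
    Top p r (L n) = C (p.eval ((n : ℝ) * (n + 1)) + ((n : ℝ) + 1 / 2) * r.eval ((n : ℝ) * (n + 1))) * L n := by
  unfold Top
  rw [LinearMap.add_apply, LinearMap.comp_apply, Aop_L hL n, ← smul_eq_C_mul (a := (n : ℝ) + 1 / 2), map_smul,
    aeval_dl_eig (hL.eig n), aeval_dl_eig (hL.eig n), C_add, add_mul, smul_eq_C_mul, C_mul, mul_assoc]

/-- every polynomial is the sum of an even and an odd part about `-1/2`. -/
lemma exists_decomp (q : ℝ[X]) : ∃ p r : ℝ[X],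
    q = p.comp (X ^ 2 + X) + (X + C (1 / 2)) * r.comp (X ^ 2 + X) := by
  have hX : ∀ q : ℝ[X], (∃ p r : ℝ[X], q = p.comp (X ^ 2 + X) + (X + C (1 / 2)) * r.comp (X ^ 2 + X)) →
      ∃ p r : ℝ[X], X * q = p.comp (X ^ 2 + X) + (X + C (1 / 2)) * r.comp (X ^ 2 + X) := by
    rintro q ⟨p, r, rfl⟩
    refine ⟨(X + C (1/4)) * r - C (1/2) * p, p - C (1/2) * r, ?_⟩
    simp only [add_comp, sub_comp, mul_comp, X_comp, C_comp]
    have h4 : (C (1/4) : ℝ[X]) = C (1/2) * C (1/2) := by
      rw [← C_mul]; norm_num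
    have h22 : (C (1/2) : ℝ[X]) + C (1/2) = 1 := by
      rw [← C_add]; norm_num
    rw [h4]
    linear_combination (X * comp r (X^2+X)) * h22
  induction q using Polynomial.induction_on' with
  | add p q hp hq =>
    obtain ⟨p1, r1, h1⟩ := hp
    obtain ⟨p2, r2, h2⟩ := hq
    refine ⟨p1 + p2, r1 + r2, ?_⟩
    rw [add_comp, add_comp, h1, h2]
    ring
  | monomial n a =>
    induction n with
    | zero => exact ⟨C a, 0, by simp⟩
    | succ n ih =>
      have : (monomial (n + 1) a : ℝ[X]) = X * monomial n a := by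
        rw [X_mul_monomial]
      rw [this]
      exact hX _ ih

end

end Pool.Agent.Helper35_Leg
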