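import Mathlib
import Pool.Agent.Helper35_Leg.Spec
import Pool.Agent.Helper35_Leg.Newton

set_option autoImplicit false

namespace Pool.Agent.Helper35_Leg

open Polynomial Filter

noncomputable section

/-- The action of `dl` on sequences `av j * R j`. -/
def De : ℝ[X] →ₗ[ℝ] ℝ[X] where
  toFun R := (X + 1) * (X * R - (X + C (3/2)) * R.comp (X + 1))
  map_add' R S := by simp only [add_comp]; ring
  map_smul' a R := by
    simp only [RingHom.id_apply, smul_eq_C_mul, mul_comp, C_comp]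
    ring

lemma De_apply (R : ℝ[X]) : De R = (X + 1) * (X * R - (X + C (3/2)) * R.comp (X + 1)) := rfl

/-- coefficientwise limit after normalisation by `bc N 0`. -/
def LimTo (f : ℕ → ℝ[X]) (R : ℝ[X]) : Prop :=
  ∀ j : ℕ, Tendsto (fun N => (f N).coeff j / bc N 0) atTop (nhds (av j * R.eval (j : ℝ)))

lemma LimTo.add {f g : ℕ → ℝ[X]} {R S : ℝ[X]} (hf : LimTo f R) (hg : LimTo g S) :
    LimTo (fun N => f N + g N) (R + S) := by
  intro j
  have := (hf j).add (hg j)
  simp only [coeff_add, eval_add, add_div, mul_add] at this ⊢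
  exact this

lemma LimTo.smul {f : ℕ → ℝ[X]} {R : ℝ[X]} (hf : LimTo f R) (a : ℝ) :
    LimTo (fun N => a • f N) (a • R) := by
  intro j
  have := (hf j).const_mul a
  simp only [coeff_smul, eval_smul, smul_eq_mul] at this ⊢
  convert this using 1
  · funext N; ring
  · ring_nf

lemma LimTo.dl {f : ℕ → ℝ[X]} {R : ℝ[X]} (hf : LimTo f R) :
    LimTo (fun N => dl (f N)) (De R) := by
  intro j
  have h1 := ((hf j).const_mul ((j : ℝ) * (j + 1))).sub ((hf (j + 1)).const_mul (((j : ℝ) + 1) ^ 2))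
  have h2 : (fun N => (Helper35_Leg.dl (f N)).coeff j / bc N 0) =
      fun N => (j : ℝ) * (j + 1) * ((f N).coeff j / bc N 0) - ((j : ℝ) + 1) ^ 2 * ((f N).coeff (j + 1) / bc N 0) := by
    funext N
    rw [dl_coeff]
    ring
  rw [h2]
  have h3 : av j * (De R).eval (j : ℝ) =
      (j : ℝ) * (j + 1) * (av j * R.eval (j : ℝ)) - ((j : ℝ) + 1) ^ 2 * (av (j + 1) * R.eval ((j + 1 : ℕ) : ℝ)) := by
    rw [De_apply]
    simp only [eval_mul, eval_add, eval_sub, eval_X, eval_one, eval_C, eval_comp, av]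
    push_cast
    have : (j : ℝ) + 1 ≠ 0 := by positivity
    field_simp
  rw [h3]
  exact h1

lemma LimTo.pow {f : ℕ → ℝ[X]} {R : ℝ[X]} (hf : LimTo f R) (k : ℕ) :
    LimTo (fun N => (Helper35_Leg.dl ^ k : Module.End ℝ ℝ[X]) (f N)) ((De ^ k : Module.End ℝ ℝ[X]) R) := by
  induction k with
  | zero => simpa using hf
  | succ k ih =>
    have := ih.dl
    simp only [pow_succ', Module.End.mul_apply]
    exact this

lemma aeval_monomial_apply (D : Module.End ℝ ℝ[X]) (n : ℕ) (a : ℝ) (f : ℝ[X]) :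
    (aeval (R := ℝ) (A := Module.End ℝ ℝ[X]) D (monomial n a)) f = a • (D ^ n) f := by
  rw [aeval_monomial, Module.algebraMap_end_eq_smul_id, smul_mul_assoc, LinearMap.smul_apply]
  rfl

lemma LimTo.aeval {f : ℕ → ℝ[X]} {R : ℝ[X]} (hf : LimTo f R) (s : ℝ[X]) :
    LimTo (fun N => (Polynomial.aeval (R := ℝ) (A := Module.End ℝ ℝ[X]) Helper35_Leg.dl s) (f N))
      ((Polynomial.aeval (R := ℝ) (A := Module.End ℝ ℝ[X]) De s) R) := by
  induction s using Polynomial.induction_on' with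
  | add p q hp hq =>
    have := hp.add hq
    simp only [map_add, LinearMap.add_apply]
    exact this
  | monomial n a =>
    have := (hf.pow n).smul a
    simp only [aeval_monomial_apply]
    exact this

lemma bc_zero_ne (N : ℕ) : bc N 0 ≠ 0 := by
  unfold bc
  rw [if_pos (Nat.zero_le N)]
  simp only [av, mul_one]
  exact mul_ne_zero (dv_pos N).ne' (ev_ne _)

lemma limTo_X_pow : LimTo (fun N => X ^ N) 0 := by
  intro j
  rw [eval_zero, mul_zero]
  apply tendsto_const_nhds.congr'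
  filter_upwards [eventually_gt_atTop j] with N hN
  rw [coeff_X_pow, if_neg (by omega), zero_div]

lemma ev_ratio : Tendsto (fun k => ev k / ev (k + 1)) atTop (nhds 1) := by
  have h1 : (fun k => ev k / ev (k + 1)) = fun k : ℕ => 1 + (3/2) / ((k : ℝ) - 1/2) := by
    funext k
    simp only [ev]
    have h1 : (k : ℝ) - 1 / 2 ≠ 0 := by
      intro h
      have h2 : (2 * k : ℝ) = 1 := by linarith
      have h3 : 2 * k = 1 := by exact_mod_cast h2
      omega
    have h2 := ev_ne k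
    have h3 : (k : ℝ) + 1 ≠ 0 := by positivity
    have e : ev k / (ev k * ((k : ℝ) - 1 / 2) / ((k : ℝ) + 1)) = ((k : ℝ) + 1) / ((k : ℝ) - 1 / 2) := by
      field_simp
    rw [e, div_eq_iff h1, add_mul, div_mul_cancel₀ _ h1]
    ring
  rw [h1]
  have h2 : Tendsto (fun k : ℕ => (k : ℝ) - 1/2) atTop atTop :=
    tendsto_atTop_add_const_right _ (-(1/2)) tendsto_natCast_atTop_atTop
  have h3 := (tendsto_const_nhds (x := (3/2 : ℝ))).div_atTop h2
  simpa using h3.const_add 1

lemma ev_ratio' (j : ℕ) : Tendsto (fun N => ev (N - j) / ev N) atTop (nhds 1) := by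
  induction j with
  | zero =>
    have : (fun N => ev (N - 0) / ev N) = fun _ => 1 := by
      funext N
      rw [Nat.sub_zero, div_self (ev_ne N)]
    rw [this]
    exact tendsto_const_nhds
  | succ j ih =>
    have h1 := (ev_ratio.comp (tendsto_sub_atTop_nat (j + 1))).mul ih
    rw [one_mul] at h1
    refine h1.congr' ?_
    filter_upwards [eventually_ge_atTop (j + 1)] with N hN
    simp only [Function.comp]
    have e1 : N - (j + 1) + 1 = N - j := by omega
    rw [e1]
    have h2 := ev_ne (N - j)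
    field_simp

lemma limTo_bpoly : LimTo bpoly 1 := by
  intro j
  rw [eval_one, mul_one]
  have h1 := (ev_ratio' j).const_mul (av j)
  rw [mul_one] at h1
  refine h1.congr' ?_
  filter_upwards [eventually_ge_atTop j] with N hN
  rw [bpoly_coeff]
  unfold bc
  rw [if_pos hN, if_pos (Nat.zero_le N)]
  simp only [av, mul_one, Nat.sub_zero]
  have h2 := (dv_pos N).ne'
  have h3 := ev_ne N
  field_simp

lemma limTo_Top (p r : ℝ[X]) :
    LimTo (fun N => Top p r (X ^ N)) ((aeval (R := ℝ) (A := Module.End ℝ ℝ[X]) De r) 1) := by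
  have h1 := limTo_X_pow.aeval p
  have h2 := limTo_bpoly.aeval r
  rw [map_zero] at h1
  have h3 := h1.add h2
  rw [zero_add] at h3
  unfold Top
  simp only [LinearMap.add_apply, LinearMap.comp_apply, Aop_monomial]
  exact h3

/-- limiting Newton inequality -/
lemma limit_newton {p r : ℝ[X]} (h : ∀ N : ℕ, (Top p r (X ^ N)).Splits) (R : ℝ[X])
    (hR : R = (aeval (R := ℝ) (A := Module.End ℝ ℝ[X]) De r) 1) (j : ℕ) :
    ((j : ℝ) + 5/2) * (R.eval (j : ℝ) * R.eval ((j : ℝ) + 2)) ≤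
      ((j : ℝ) + 3/2) * R.eval ((j : ℝ) + 1) ^ 2 := by
  have hl := limTo_Top p r
  rw [← hR] at hl
  have h0 := hl j
  have h1 := hl (j + 1)
  have h2 := hl (j + 2)
  have hlhs := (h0.mul h2).const_mul ((j : ℝ) + 2)
  have hrhs := (h1.pow 2).const_mul ((j : ℝ) + 1)
  have hle := le_of_tendsto_of_tendsto' hlhs hrhs (by
    intro N
    have h3 := newton (h N) j
    have h4 : 0 < (bc N 0) ^ 2 := by
      have := bc_zero_ne N
      positivity
    have e1 : ((j : ℝ) + 2) * ((Top p r (X ^ N)).coeff j / bc N 0 * ((Top p r (X ^ N)).coeff (j + 2) / bc N 0))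
        = ((j : ℝ) + 2) * ((Top p r (X ^ N)).coeff j * (Top p r (X ^ N)).coeff (j + 2)) / (bc N 0) ^ 2 := by
      have := bc_zero_ne N
      field_simp
    have e2 : ((j : ℝ) + 1) * ((Top p r (X ^ N)).coeff (j + 1) / bc N 0) ^ 2
        = ((j : ℝ) + 1) * (Top p r (X ^ N)).coeff (j + 1) ^ 2 / (bc N 0) ^ 2 := by
      have := bc_zero_ne N
      field_simp
    rw [e1, e2]
    exact div_le_div_of_nonneg_right h3 h4.le)
  simp only [av] at hle
  push_cast at hle
  have hav := av_pos j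
  have hj1 : (0:ℝ) < (j : ℝ) + 1 := by positivity
  have hj2 : (0:ℝ) < (j : ℝ) + 1 + 1 := by positivity
  have hj3 : (0:ℝ) < (j : ℝ) + 3 / 2 := by positivity
  have e3 : ((j : ℝ) + 2) * (av j * R.eval (j : ℝ) * (av j * ((j : ℝ) + 3 / 2) / (↑j + 1) * ((j : ℝ) + 1 + 3 / 2) / (↑j + 1 + 1) * R.eval ((j : ℝ) + 2)))
      = (av j ^ 2 * (((j : ℝ) + 3 / 2) / (↑j + 1))) * (((j : ℝ) + 5/2) * (R.eval (j : ℝ) * R.eval ((j : ℝ) + 2))) := by
    field_simp
    ring
  have e4 : ((j : ℝ) + 1) * (av j * ((j : ℝ) + 3 / 2) / (↑j + 1) * R.eval ((j : ℝ) + 1)) ^ 2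
      = (av j ^ 2 * (((j : ℝ) + 3 / 2) / (↑j + 1))) * (((j : ℝ) + 3/2) * R.eval ((j : ℝ) + 1) ^ 2) := by
    field_simp
  rw [e3, e4] at hle
  exact le_of_mul_le_mul_left hle (by positivity)

end

end Pool.Agent.Helper35_Leg
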