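import Mathlib
import Pool.Agent.Helper35_Leg.Limit

set_option autoImplicit false

namespace Pool.Agent.Helper35_Leg

open Polynomial Filter

noncomputable section

lemma De_inj {S : ℝ[X]} (h : De S = 0) : S = 0 := by
  have hev : ∀ j : ℕ, ((j : ℝ) + 3/2) * S.eval ((j : ℝ) + 1) = (j : ℝ) * S.eval (j : ℝ) := by
    intro j
    have h1 : (De S).eval (j : ℝ) = 0 := by rw [h, eval_zero]
    rw [De_apply] at h1
    simp only [eval_mul, eval_add, eval_sub, eval_X, eval_one, eval_C, eval_comp] at h1
    have h2 : (j : ℝ) + 1 ≠ 0 := by positivity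
    rcases mul_eq_zero.mp h1 with h3 | h3
    · exact absurd h3 h2
    · linarith
  have hz : ∀ j : ℕ, S.eval ((j : ℝ) + 1) = 0 := by
    intro j
    induction j with
    | zero =>
      have := hev 0
      simp only [Nat.cast_zero, zero_mul] at this
      rcases mul_eq_zero.mp this with h3 | h3
      · norm_num at h3
      · simpa using h3
    | succ j ih =>
      have := hev (j + 1)
      push_cast at this ⊢
      rw [ih, mul_zero] at this
      rcases mul_eq_zero.mp this with h3 | h3
      · exfalso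
        have : (0:ℝ) < (j : ℝ) + 1 + 3 / 2 := by positivity
        linarith
      · exact h3
  apply eq_zero_of_infinite_isRoot
  apply Set.infinite_of_injective_forall_mem (f := fun j : ℕ => (j : ℝ) + 1)
  · intro a b hab
    simpa using hab
  · intro j
    exact hz j

lemma eq_zero_of_aeval_De (n : ℕ) : ∀ r : ℝ[X], r.natDegree < n →
    (aeval (R := ℝ) (A := Module.End ℝ ℝ[X]) De r) 1 = 0 → r = 0 := by
  induction n with
  | zero => intro r hr; omega
  | succ n ih =>
    intro r hr h
    have h1 : r = X * r.divX + C (r.coeff 0) := (X_mul_divX_add r).symm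
    have h2 : (aeval (R := ℝ) (A := Module.End ℝ ℝ[X]) De r) 1
        = De ((aeval (R := ℝ) (A := Module.End ℝ ℝ[X]) De r.divX) 1) + (r.coeff 0) • 1 := by
      conv_lhs => rw [h1]
      rw [map_add, map_mul, aeval_X, aeval_C, LinearMap.add_apply, Module.End.mul_apply,
        Module.algebraMap_end_apply]
    rw [h2] at h
    have h3 : r.coeff 0 = 0 := by
      have := congrArg (fun p => eval (-1) p) h
      simp only [De_apply] at this
      simp at this
      exact this
    rw [h3, zero_smul, add_zero] at h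
    have h4 := De_inj h
    have h5 : r.divX = 0 := by
      by_cases hd : r.natDegree = 0
      · rw [eq_C_of_natDegree_eq_zero hd, divX_C]
      · apply ih _ _ h4
        rw [natDegree_divX_eq_natDegree_tsub_one]
        omega
    rw [h1, h5, h3]
    simp

lemma eq_zero_of_limit {R : ℝ[X]}
    (h : ∀ j : ℕ, ((j : ℝ) + 5/2) * (R.eval (j : ℝ) * R.eval ((j : ℝ) + 2)) ≤
      ((j : ℝ) + 3/2) * R.eval ((j : ℝ) + 1) ^ 2) : R = 0 := by
  by_contra hR
  -- ratios tend to one
  have hdeg : (R.comp (X + C 1)).degree = R.degree := by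
    have h1 : (R.comp (X + C 1)).natDegree = R.natDegree := by
      rw [natDegree_comp, natDegree_X_add_C, mul_one]
    have h2 : R.comp (X + C 1) ≠ 0 := by
      intro h0
      apply hR
      have := congrArg (fun p => p.comp (X - C 1)) h0
      simp only [comp_assoc, add_comp, X_comp, C_comp, zero_comp, sub_add_cancel, comp_X] at this
      exact this
    rw [degree_eq_natDegree h2, degree_eq_natDegree hR, h1]
  have hlc : (R.comp (X + C 1)).leadingCoeff = R.leadingCoeff := by
    rw [leadingCoeff_comp (by rw [natDegree_X_add_C]; norm_num), leadingCoeff_X_add_C, one_pow, mul_one]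
  have ht := div_tendsto_atTop_leadingCoeff_div_of_degree_eq _ _ hdeg
  rw [hlc, div_self (leadingCoeff_ne_zero.mpr hR)] at ht
  have ht2 := ht.comp tendsto_natCast_atTop_atTop
  have hρ : Tendsto (fun j : ℕ => R.eval ((j : ℝ) + 1) / R.eval (j : ℝ)) atTop (nhds 1) := by
    refine ht2.congr ?_
    intro j
    simp [eval_comp]
  have hev := hρ.eventually (Ioi_mem_nhds (show (1/2 : ℝ) < 1 by norm_num))
  obtain ⟨J, hJ⟩ := eventually_atTop.mp hev
  have hpos : ∀ j, J ≤ j → 1/2 < R.eval ((j : ℝ) + 1) / R.eval (j : ℝ) := fun j hj => hJ j hj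
  -- the monotone quantity
  set σ : ℕ → ℝ := fun j => ((j : ℝ) + 3/2) * (R.eval ((j : ℝ) + 1) / R.eval (j : ℝ)) with hσ
  have hanti : ∀ j, J ≤ j → σ (j + 1) ≤ σ j := by
    intro j hj
    have h1 := hpos j hj
    have h2 := hpos (j + 1) (by omega)
    have h3 := h j
    simp only [hσ]
    push_cast at h2 ⊢
    have e : (j : ℝ) + 1 + 1 = (j : ℝ) + 2 := by ring
    rw [e] at h2 ⊢
    have hR0 : R.eval (j : ℝ) ≠ 0 := by
      intro h0; rw [h0, div_zero] at h1; linarith
    have hR1 : R.eval ((j : ℝ) + 1) ≠ 0 := by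
      intro h0; rw [h0, div_zero] at h2; linarith
    have h4 : 0 < R.eval ((j : ℝ) + 1) * R.eval (j : ℝ) := by
      have : R.eval ((j : ℝ) + 1) * R.eval (j : ℝ) = (R.eval ((j : ℝ) + 1) / R.eval (j : ℝ)) * (R.eval (j : ℝ)) ^ 2 := by
        field_simp
      rw [this]
      have : 0 < (R.eval (j : ℝ)) ^ 2 := by positivity
      nlinarith
    have h5 : ((j : ℝ) + 1 + 3/2) * (R.eval ((j : ℝ) + 2) / R.eval ((j : ℝ) + 1))
        = (((j : ℝ) + 5/2) * (R.eval (j : ℝ) * R.eval ((j : ℝ) + 2))) / (R.eval ((j : ℝ) + 1) * R.eval (j : ℝ)) := by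
      field_simp
      ring
    have h6 : ((j : ℝ) + 3/2) * (R.eval ((j : ℝ) + 1) / R.eval (j : ℝ))
        = (((j : ℝ) + 3/2) * R.eval ((j : ℝ) + 1) ^ 2) / (R.eval ((j : ℝ) + 1) * R.eval (j : ℝ)) := by
      field_simp
    rw [h5, h6]
    exact div_le_div_of_nonneg_right h3 h4.le
  have hbound : ∀ k, σ (J + k) ≤ σ J := by
    intro k
    induction k with
    | zero => exact le_rfl
    | succ k ih => exact (hanti (J + k) (by omega)).trans ih
  obtain ⟨k, hk⟩ := exists_nat_gt (2 * σ J)
  have h1 := hbound k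
  have h2 := hpos (J + k) (by omega)
  simp only [hσ] at h1
  have h3 : ((J + k : ℕ) : ℝ) + 3/2 > 2 * σ J := by
    push_cast
    have : (0:ℝ) ≤ J := Nat.cast_nonneg J
    linarith
  have h4 : (0:ℝ) < ((J + k : ℕ) : ℝ) + 3/2 := by positivity
  have h5 : (((J + k : ℕ) : ℝ) + 3/2) * (1/2) < (((J + k : ℕ) : ℝ) + 3/2) * (R.eval (((J + k : ℕ) : ℝ) + 1) / R.eval ((J + k : ℕ) : ℝ)) :=
    mul_lt_mul_of_pos_left h2 h4
  simp only [hσ] at h3
  linarith

theorem odd_part_eq_zero {p r : ℝ[X]} (h : ∀ N : ℕ, (Top p r (X ^ N)).Splits) : r = 0 := by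
  have h1 := eq_zero_of_limit (limit_newton h _ rfl)
  exact eq_zero_of_aeval_De (r.natDegree + 1) r (by omega) h1

end

end Pool.Agent.Helper35_Leg
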