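import Mathlib
import Pool.Agent.Helper35_Leg.Kill

set_option autoImplicit false

namespace Pool.Agent.Helper35_Leg

open Polynomial Filter

noncomputable section

/-- integral over `[-1,1]` of a product -/
def II (f g : ℝ[X]) : ℝ := ∫ x in (-1:ℝ)..1, f.eval x * g.eval x

lemma II_integrable (f : ℝ[X]) : IntervalIntegrable (fun x => f.eval x) MeasureTheory.volume (-1:ℝ) 1 :=
  f.continuous.intervalIntegrable _ _

lemma II_eq (f g : ℝ[X]) : II f g = ∫ x in (-1:ℝ)..1, (f * g).eval x := by
  unfold II; simp only [eval_mul]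

lemma II_sub_right (f g h : ℝ[X]) : II f (g - h) = II f g - II f h := by
  rw [II_eq, II_eq, II_eq, mul_sub]
  simp only [eval_sub]
  exact intervalIntegral.integral_sub (II_integrable _) (II_integrable _)

lemma II_comm (f g : ℝ[X]) : II f g = II g f := by
  rw [II_eq, II_eq, mul_comm]

lemma II_C_mul_right (f g : ℝ[X]) (c : ℝ) : II f (C c * g) = c * II f g := by
  unfold II
  rw [← intervalIntegral.integral_const_mul]
  congr 1
  funext x
  simp only [eval_mul, eval_C]
  ring

lemma int_derivative (H : ℝ[X]) : ∫ x in (-1:ℝ)..1, (derivative H).eval x = H.eval 1 - H.eval (-1) := by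
  exact intervalIntegral.integral_eq_sub_of_hasDerivAt (f := fun x => H.eval x)
    (fun x _ => H.hasDerivAt x) (II_integrable _)

/-- The Legendre operator. -/
def dx (f : ℝ[X]) : ℝ[X] := (X ^ 2 - 1) * derivative (derivative f) + 2 * X * derivative f

lemma II_dx (f g : ℝ[X]) : II (dx f) g = II f (dx g) := by
  have key : ∀ f g : ℝ[X], II (dx f) g = - ∫ x in (-1:ℝ)..1, ((X ^ 2 - 1) * derivative f * derivative g).eval x := by
    intro f g
    have h1 := int_derivative ((X ^ 2 - 1) * derivative f * g)
    have h2 : derivative ((X ^ 2 - 1) * derivative f * g) = dx f * g + (X ^ 2 - 1) * derivative f * derivative g := by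
      unfold dx
      simp only [derivative_mul, derivative_sub, derivative_X_pow, derivative_one]
      simp only [Nat.cast_ofNat, sub_zero]
      rw [show (C (2:ℝ) : ℝ[X]) = 2 from rfl]
      ring
    rw [h2] at h1
    simp only [eval_add] at h1
    rw [intervalIntegral.integral_add (II_integrable _) (II_integrable _)] at h1
    rw [II_eq]
    have h3 : eval 1 ((X ^ 2 - 1) * derivative f * g) = 0 := by simp
    have h4 : eval (-1) ((X ^ 2 - 1) * derivative f * g) = 0 := by simp
    rw [h3, h4] at h1
    linarith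
  rw [key f g, II_comm f, key g f]
  congr 2
  funext x
  rw [mul_assoc, mul_comm (derivative f), ← mul_assoc]

lemma dx_coeff (f : ℝ[X]) (j : ℕ) :
    (dx f).coeff j = (j : ℝ) * (j + 1) * f.coeff j - ((j : ℝ) + 1) * (j + 2) * f.coeff (j + 2) := by
  unfold dx
  have h2 : (2 * X : ℝ[X]) * derivative f = C 2 * (X * derivative f) := by
    rw [show (C (2:ℝ) : ℝ[X]) = 2 from rfl]; ring
  have h1 : (X ^ 2 - 1 : ℝ[X]) * derivative (derivative f)
      = X * (X * derivative (derivative f)) - derivative (derivative f) := by ring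
  rw [h1, h2]
  rcases j with _ | _ | j
  · simp [coeff_derivative]
    ring
  · simp only [coeff_add, coeff_sub, coeff_X_mul, coeff_C_mul, coeff_X_mul_zero, coeff_derivative]
    simp
    ring
  · simp only [coeff_add, coeff_sub, coeff_X_mul, coeff_C_mul, coeff_derivative]
    push_cast
    ring

/-- a Legendre family -/
def IsLeg (P : ℕ → ℝ[X]) : Prop :=
  (∀ n, (P n).degree = n) ∧
    ∀ m n, m ≠ n → ∫ x in (-1:ℝ)..1, (P m).eval x * (P n).eval x = 0

lemma IsLeg.ne {P : ℕ → ℝ[X]} (hP : IsLeg P) (n : ℕ) : P n ≠ 0 := by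
  intro h
  have := hP.1 n
  rw [h, degree_zero] at this
  exact absurd this (by simp)

lemma IsLeg.natDegree {P : ℕ → ℝ[X]} (hP : IsLeg P) (n : ℕ) : (P n).natDegree = n :=
  natDegree_eq_of_degree_eq_some (hP.1 n)

lemma IsLeg.orth {P : ℕ → ℝ[X]} (hP : IsLeg P) (n : ℕ) :
    ∀ k : ℕ, k ≤ n → ∀ f : ℝ[X], (∀ j, k ≤ j → f.coeff j = 0) → II (P n) f = 0 := by
  intro k
  induction k with
  | zero =>
    intro _ f hf
    have : f = 0 := by
      ext j; simpa using hf j (Nat.zero_le j)
    rw [this]
    unfold II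
    simp
  | succ k ih =>
    intro hk f hf
    have hl : (P k).coeff k ≠ 0 := by
      have := leadingCoeff_ne_zero.mpr (hP.ne k)
      rwa [leadingCoeff, hP.natDegree k] at this
    have h1 := ih (by omega) (f - C (f.coeff k / (P k).coeff k) * P k) (by
      intro j hj
      rw [coeff_sub, coeff_C_mul]
      rcases hj.lt_or_eq with h | h
      · rw [hf j (by omega), coeff_eq_zero_of_natDegree_lt (p := P k) (n := j) (by rw [hP.natDegree k]; exact h)]
        ring
      · subst h
        field_simp
        ring)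
    rw [II_sub_right, II_C_mul_right] at h1
    have h2 : II (P n) (P k) = 0 := hP.2 n k (by omega)
    rw [h2, mul_zero, sub_zero] at h1
    exact h1

lemma II_self_pos {h : ℝ[X]} (hne : h ≠ 0) : 0 < II h h := by
  unfold II
  apply intervalIntegral.integral_pos (by norm_num)
  · exact (h.continuous.mul h.continuous).continuousOn
  · intro x _
    exact mul_self_nonneg _
  · by_contra hcon
    push Not at hcon
    apply hne
    apply eq_zero_of_infinite_isRoot
    refine (Set.Icc_infinite (show (-1:ℝ) < 1 by norm_num)).mono ?_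
    intro x hx
    have h1 := hcon x hx
    have h2 := mul_self_nonneg (h.eval x)
    have h3 : h.eval x * h.eval x = 0 := le_antisymm h1 h2
    exact mul_self_eq_zero.mp h3

lemma IsLeg.ode {P : ℕ → ℝ[X]} (hP : IsLeg P) (n : ℕ) :
    dx (P n) = C ((n : ℝ) * (n + 1)) * P n := by
  rw [← sub_eq_zero]
  set h := dx (P n) - C ((n : ℝ) * (n + 1)) * P n with hh
  have hlow : ∀ j, n ≤ j → h.coeff j = 0 := by
    intro j hj
    rw [hh, coeff_sub, coeff_C_mul, dx_coeff]
    have h2 : (P n).coeff (j + 2) = 0 := coeff_eq_zero_of_natDegree_lt (by rw [hP.natDegree n]; omega)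
    rw [h2]
    rcases hj.lt_or_eq with h3 | h3
    · rw [coeff_eq_zero_of_natDegree_lt (p := P n) (n := j) (by rw [hP.natDegree n]; exact h3)]
      ring
    · subst h3
      ring
  have hdxlow : ∀ j, n ≤ j → (dx h).coeff j = 0 := by
    intro j hj
    rw [dx_coeff, hlow j hj, hlow (j + 2) (by omega)]
    ring
  by_contra hne
  have hpos := II_self_pos hne
  have h1 : II h h = 0 := by
    have e : II h h = II (dx (P n)) h - (n : ℝ) * (n + 1) * II (P n) h := by
      rw [II_comm h h]
      conv_lhs => rw [show II h h = II h (dx (P n) - C ((n : ℝ) * (n + 1)) * P n) from by rw [← hh]]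
      rw [II_sub_right, II_C_mul_right, II_comm h, II_comm h (P n)]
    rw [e, II_dx, hP.orth n n le_rfl _ hdxlow, hP.orth n n le_rfl _ hlow]
    ring
  linarith

/-- real zeros only -/
def RZ (p : ℝ[X]) : Prop := p = 0 ∨ ∀ z : ℂ, aeval z p = 0 → z.im = 0

lemma RZ_of_splits {p : ℝ[X]} (h : p.Splits) : RZ p := by
  by_cases h0 : p = 0
  · exact Or.inl h0
  · right
    intro z hz
    have h1 := h.eq_prod_roots
    rw [h1, map_mul, aeval_C] at hz
    rcases mul_eq_zero.mp hz with h2 | h2
    · exfalso
      apply leadingCoeff_ne_zero.mpr h0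
      simpa using h2
    · rw [map_multiset_prod, Multiset.map_map, Multiset.prod_eq_zero_iff, Multiset.mem_map] at h2
      obtain ⟨a, _, ha⟩ := h2
      simp only [Function.comp, map_sub, aeval_X, aeval_C] at ha
      have : z = (a : ℂ) := by
        rw [sub_eq_zero] at ha
        exact ha
      rw [this]
      exact Complex.ofReal_im a

lemma splits_of_RZ {p : ℝ[X]} (h : RZ p) : p.Splits := by
  rcases h with rfl | h
  · exact Splits.zero
  · by_cases h0 : p = 0
    · rw [h0]; exact Splits.zero
    · apply Splits.of_splits_map_of_injective (i := algebraMap ℝ ℂ) (algebraMap ℝ ℂ).injective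
      · exact IsAlgClosed.splits _
      · intro a ha
        rw [mem_roots', IsRoot.def, eval_map_algebraMap] at ha
        have := h a ha.2
        refine ⟨a.re, ?_⟩
        apply Complex.ext
        · simp
        · simp [this]

/-- substitution `x = 2y - 1` -/
def phi : ℝ[X] →ₐ[ℝ] ℝ[X] := aeval (2 * X - 1 : ℝ[X])

/-- substitution `y = (1+x)/2` -/
def psi : ℝ[X] →ₐ[ℝ] ℝ[X] := aeval (C (1/2) * X + C (1/2) : ℝ[X])

lemma psi_phi (f : ℝ[X]) : psi (phi f) = f := by
  have : (psi.comp phi) = AlgHom.id ℝ ℝ[X] := by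
    apply Polynomial.algHom_ext
    simp only [AlgHom.comp_apply, phi, aeval_X, AlgHom.id_apply, map_sub, map_mul, map_one, map_ofNat]
    simp only [psi, aeval_X]
    have h22 : (2 : ℝ[X]) * C (1/2) = 1 := by
      rw [show (2 : ℝ[X]) = C 2 from rfl, ← C_mul]; norm_num
    linear_combination (X + 1) * h22
  exact congrArg (fun g => g f) this

lemma phi_psi (f : ℝ[X]) : phi (psi f) = f := by
  have : (phi.comp psi) = AlgHom.id ℝ ℝ[X] := by
    apply Polynomial.algHom_ext
    simp only [AlgHom.comp_apply, psi, aeval_X, AlgHom.id_apply, map_add, map_mul]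
    simp only [phi, aeval_X, aeval_C]
    have h22 : (2 : ℝ[X]) * C (1/2) = 1 := by
      rw [show (2 : ℝ[X]) = C 2 from rfl, ← C_mul]; norm_num
    change C (1/2) * (2 * X - 1) + C (1/2) = X
    linear_combination X * h22
  exact congrArg (fun g => g f) this

lemma phi_eq_comp (f : ℝ[X]) : phi f = f.comp (C 2 * X + C (-1)) := by
  unfold phi
  rw [comp_eq_aeval]
  congr 2
  rw [show (C (2:ℝ) : ℝ[X]) = 2 from rfl, C_neg, C_1]
  ring

lemma derivative_phi (f : ℝ[X]) : derivative (phi f) = 2 * phi (derivative f) := by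
  rw [phi_eq_comp, phi_eq_comp, derivative_comp]
  simp only [derivative_add, derivative_mul, derivative_C, derivative_X]
  rw [show (C (2:ℝ) : ℝ[X]) = 2 from rfl]
  ring

lemma fam_phi {P : ℕ → ℝ[X]} (hP : IsLeg P) : Fam (fun n => phi (P n)) where
  ne n := by
    intro h
    apply hP.ne n
    rw [← psi_phi (P n), h, map_zero]
  deg n := by
    rw [phi_eq_comp, natDegree_comp, natDegree_linear (by norm_num), hP.natDegree n, mul_one]
  eig n := by
    have h1 := hP.ode n
    rw [dl_apply, derivative_phi, derivative_mul, derivative_phi]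
    have h2 := congrArg phi h1
    unfold dx at h2
    rw [map_add, map_mul, map_mul, map_mul, map_mul, map_sub, map_pow, map_one, map_ofNat] at h2
    have h3 : phi X = 2 * X - 1 := by unfold phi; rw [aeval_X]
    have h4 : phi (C ((n : ℝ) * (n + 1))) = C ((n : ℝ) * (n + 1)) := by
      unfold phi; rw [aeval_C]; rfl
    rw [h3, h4] at h2
    rw [← h2]
    simp only [derivative_ofNat]
    ring

theorem main {P : ℕ → ℝ[X]} (hP : IsLeg P) (q : ℝ[X]) (Γ : ℝ[X] →ₗ[ℝ] ℝ[X])
    (hΓ : ∀ n : ℕ, Γ (P n) = C (q.eval (n : ℝ)) * P n)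
    (hpres : ∀ N : ℕ, RZ (Γ ((1 + X) ^ N))) :
    q.comp (-1 - X) = q ∧ Even q.natDegree := by
  obtain ⟨p, r, hq⟩ := exists_decomp q
  have hfam := fam_phi hP
  have hS := eq_zero_of_fam hfam.ne hfam.deg
    (phi.toLinearMap ∘ₗ Γ ∘ₗ psi.toLinearMap - Top p r) (by
      intro n
      rw [LinearMap.sub_apply, LinearMap.comp_apply, LinearMap.comp_apply]
      rw [AlgHom.toLinearMap_apply, AlgHom.toLinearMap_apply, psi_phi, hΓ, map_mul, Top_L hfam]
      have h4 : phi (C (q.eval (n : ℝ))) = C (q.eval (n : ℝ)) := by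
        unfold phi; rw [aeval_C]; rfl
      rw [h4, sub_eq_zero]
      congr 2
      conv_lhs => rw [hq]
      simp only [eval_add, eval_mul, eval_comp, eval_pow, eval_X, eval_C]
      have : (n : ℝ) ^ 2 + n = n * (n + 1) := by ring
      rw [this])
  have hTop : ∀ N : ℕ, (Top p r (X ^ N)).Splits := by
    intro N
    have h1 := hS (X ^ N)
    rw [LinearMap.sub_apply, LinearMap.comp_apply, LinearMap.comp_apply, sub_eq_zero,
      AlgHom.toLinearMap_apply, AlgHom.toLinearMap_apply] at h1
    rw [← h1]
    have h2 : psi (X ^ N) = ((1/2 : ℝ) ^ N) • (1 + X : ℝ[X]) ^ N := by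
      rw [map_pow, smul_eq_C_mul, C_pow, ← mul_pow]
      congr 1
      unfold psi
      rw [aeval_X]
      ring
    have h3 : (Γ (psi (X ^ N))).Splits := by
      rw [h2, map_smul, smul_eq_C_mul]
      exact (splits_of_RZ (hpres N)).C_mul _
    rw [phi_eq_comp]
    apply Splits.comp_of_natDegree_le_one h3
    exact natDegree_linear_le
  have hr := odd_part_eq_zero hTop
  rw [hr, zero_comp, mul_zero, add_zero] at hq
  constructor
  · rw [hq, comp_assoc]
    congr 1
    simp only [add_comp, pow_comp, X_comp]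
    ring
  · rw [hq, natDegree_comp]
    have : (X ^ 2 + X : ℝ[X]).natDegree = 2 := by
      compute_degree!
    rw [this]
    exact even_two.mul_left _

end

end Pool.Agent.Helper35_Leg
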