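import Mathlib
import Pool.Agent.Helper35_Leg.Orth

set_option autoImplicit false

namespace Pool.Agent.Helper35_Leg.Withdrawn

open Polynomial

/-- `p` has only real zeros (the zero polynomial and nonzero constants count). -/
def OnlyRealZeros (p : ℝ[X]) : Prop := p = 0 ∨ ∀ z : ℂ, aeval z p = 0 → z.im = 0

/-- `P` is a family of Legendre polynomials (in any normalisation): `P n` is a real polynomial of
degree exactly `n`, and the `P n` are orthogonal on `[-1,1]` with respect to Lebesgue measure. -/
def IsLegendreFamily (P : ℕ → ℝ[X]) : Prop :=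
  (∀ n : ℕ, (P n).degree = n) ∧
    ∀ m n : ℕ, m ≠ n → ∫ x in (-1:ℝ)..1, (P m).eval x * (P n).eval x = 0

/-- Let `q` be a real polynomial which has odd degree (for instance degree three), or more generally is
not invariant under `k ↦ -1-k`, and let `Γ` be the operator `Γ[P_n] = q(n) P_n` on real polynomials,
where `P_n` are the Legendre polynomials. Then `Γ` does not preserve the property of having only
real zeros; indeed `Γ[(1+x)^N]` has a non-real zero for some `N`. -/
theorem result (P : ℕ → ℝ[X]) (hP : IsLegendreFamily P) (q : ℝ[X])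
    (hq : Odd q.natDegree ∨ q.comp (-1 - X) ≠ q) (Γ : ℝ[X] →ₗ[ℝ] ℝ[X])
    (hΓ : ∀ n : ℕ, Γ (P n) = q.eval (n : ℝ) • P n) :
    ∃ N : ℕ, OnlyRealZeros ((1 + X) ^ N) ∧ ¬ OnlyRealZeros (Γ ((1 + X) ^ N)) := by
  by_contra hcon
  push Not at hcon
  have hreal : ∀ N : ℕ, OnlyRealZeros ((1 + X : ℝ[X]) ^ N) := by
    intro N
    right
    intro z hz
    rw [map_pow, map_add, map_one, aeval_X] at hz
    have h1 : (1 : ℂ) + z = 0 := by
      by_contra hne
      exact pow_ne_zero N hne hz
    have h2 : z = -1 := by linear_combination h1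
    rw [h2]
    simp
  have h := Pool.Agent.Helper35_Leg.main (P := P) hP q Γ
    (by intro n; rw [hΓ n, smul_eq_C_mul]) (fun N => hcon N (hreal N))
  rcases hq with h1 | h1
  · exact (Nat.not_even_iff_odd.mpr h1) h.2
  · exact h1 h.1

end Pool.Agent.Helper35_Leg.Withdrawn
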